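import Pool.Agent.Helper78.TS.TallAsm
import Pool.Agent.Helper83.Cert.Check

/-!
# The totals for a tall class, sets A and B
-/

set_option autoImplicit false
set_option maxRecDepth 100000
set_option linter.all false

namespace Pool.Agent.Helper36.TW

open Pool.Agent.Helper83.Cert Pool.Agent.Helper83.TS Pool.Agent.Helper78.TS Pool.Agent.Helper36.TS

theorem tot_A {x y z t : ℝ} (x0 : 0 ≤ x) (x1 : x ≤ 3 / 5) (y0 : 0 ≤ y) (y1 : y ≤ 3 / 5) (z0 : 0 ≤ z) (z1 : z ≤ 3 / 5) (t0 : 0 ≤ t) (t1 : t ≤ 3 / 5) :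
    rowc (TallA.n0 x) x + rowc (TallA.n1 y) y + rowc (TallA.n1 z) z + rowc (TallA.n3 t) t
    + TallA.k01 x y * (x + y) + TallA.k01 x z * (x + z) + TallA.q03 x t * (x + t)
    + TallA.k12 y z * (y + z)
    + (TallA.wb y z t + (TallA.t3 t + TallA.wm x z t) + (TallA.t3 t + TallA.wm x y t)
      + TallA.wa x y z) ≤ 613 / 200 := by
  have nx : 0 ≤ x := by linarith
  have ny : 0 ≤ y := by linarith
  have nz : 0 ≤ z := by linarith
  have nt : 0 ≤ t := by linarith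
  have h := cert (y := yv x y z t 0 0 0 0 0)
    (gs := [(.v 2),
      (.add (.c (3)) (.mul (.c (-5)) (.v 2))),
      (.v 3),
      (.add (.c (3)) (.mul (.c (-5)) (.v 3))),
      (.v 5),
      (.add (.c (3)) (.mul (.c (-5)) (.v 5))),
      (.v 7),
      (.add (.c (3)) (.mul (.c (-5)) (.v 7)))])
    (p := .mul (.c 1000000) (.add (.add (.add (.add (.c (589)) (.add (.mul (.c (78759)) (.v 2)) (.mul (.c (35907)) (.v 3)))) (.add (.mul (.c (-120273)) (.mul (.v 2) (.v 2))) (.add (.mul (.c (35907)) (.v 5)) (.mul (.c (219537)) (.mul (.v 2) (.v 3)))))) (.add (.add (.mul (.c (3000)) (.v 7)) (.add (.mul (.c (50000)) (.mul (.mul (.v 2) (.v 2)) (.v 2))) (.mul (.c (-69822)) (.mul (.v 3) (.v 3))))) (.add (.add (.mul (.c (219537)) (.mul (.v 2) (.v 5))) (.mul (.c (-179994)) (.mul (.mul (.v 2) (.v 2)) (.v 3)))) (.add (.mul (.c (-260979)) (.mul (.v 2) (.v 7))) (.mul (.c (302961)) (.mul (.v 3) (.v 5))))))) (.add (.add (.add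 (.mul (.c (-179994)) (.mul (.mul (.v 2) (.v 3)) (.v 3))) (.add (.mul (.c (-179994)) (.mul (.mul (.v 2) (.v 2)) (.v 5))) (.mul (.c (-18624)) (.mul (.v 3) (.v 7))))) (.add (.add (.mul (.c (-69822)) (.mul (.v 5) (.v 5))) (.mul (.c (50000)) (.mul (.mul (.v 3) (.v 3)) (.v 3)))) (.add (.mul (.c (202680)) (.mul (.mul (.v 2) (.v 2)) (.v 7))) (.mul (.c (-18624)) (.mul (.v 5) (.v 7)))))) (.add (.add (.mul (.c (-220692)) (.mul (.mul (.v 3) (.v 3)) (.v 5))) (.add (.mul (.c (-25002)) (.mul (.v 7) (.v 7))) (.mul (.c (-179994)) (.mul (.mul (.v 2) (.v 5)) (.v 5))))) (.add (.add (.mul (.c (-220692)) (.mul (.mul (.v 3) (.v 5)) (.v 5))) (.mul (.c (202680)) (.mul (.mul (.v 2) (.v 7)) (.v 7)))) (.add (.mul (.c (50000)) (.mul (.mul (.v 5) (.v 5)) (.v 5))) (.mul (.c (50000)) (.mul (.mul (.v 7) (.v 7)) (.v 7)))))))))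
    (e := (.add (.add (.add (.mul (.pp [(1, 378288)]) (.sq [(1, -17), (2, -13), (7, 50)])) (.add (.mul (.g 2) (.add (.add (.pp [(1, 829560000)]) (.mul (.g 3) (.add (.add (.pp [(1, 1965720000)]) (.mul (.g 0) (.pp [(1, 35999400000)]))) (.add (.mul (.g 3) (.pp [(1, 1999880400)])) (.add (.mul (.g 4) (.pp [(1, 44139000000)])) (.mul (.g 6) (.pp [(1, 600000)]))))))) (.add (.mul (.g 4) (.add (.add (.pp [(1, 38120400000)]) (.mul (.g 1) (.pp [(1, 600000)]))) (.add (.mul (.g 5) (.pp [(1, 44139000000)])) (.mul (.g 7) (.pp [(1, 600000)]))))) (.add (.mul (.g 0) (.add (.pp [(1, 3535800000)]) (.add (.mul (.g 1) (.pp [(1, 35999400000)])) (.mul (.g 7) (.pp [(1, 600000)]))))) (.mul (.g 7) (.add (.pp [(1, 3726120000)]) (.mul (.g 6) (.pp [(1, 600000)])))))))) (.mul (.g 4) (.add (.add (.pp [(1, 829560000)]) (.mul (.g 0) (.add (.add (.pp [(1, 3535800000)]) (.mul (.g 1) (.pp [(1, 35999400000)]))) (.add (.mul (.g 5) (.pp [(1,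 35999400000)])) (.mul (.g 7) (.pp [(1, 600000)])))))) (.add (.mul (.g 5) (.add (.pp [(1, 1965720000)]) (.add (.mul (.g 5) (.pp [(1, 1999880400)])) (.mul (.g 6) (.pp [(1, 600000)]))))) (.mul (.g 7) (.add (.pp [(1, 3726120000)]) (.mul (.g 6) (.pp [(1, 600000)]))))))))) (.add (.mul (.g 0) (.add (.add (.mul (.pp [(1, 42807)]) (.sq [(1, -61), (2, 100), (7, 53)])) (.mul (.pp [(1, 17757558)]) (.sq [(1, -60), (2, 51), (7, 100)]))) (.add (.mul (.pp [(1, 106560525)]) (.sq [(1, -7), (2, -1), (7, 20)])) (.add (.mul (.g 1) (.mul (.g 1) (.pp [(1, 461124000)]))) (.mul (.g 7) (.mul (.g 7) (.pp [(1, 367350000)]))))))) (.add (.mul (.g 6) (.add (.mul (.pp [(1, 4300137)]) (.sq [(1, -39), (2, -9), (7, 100)])) (.mul (.pp [(1, 699561)]) (.sq [(1, -27), (2, -1), (7, 100)])))) (.mul (.g 1) (.mul (.pp [(1, 378933)]) (.sq [(1, -15), (2, -66), (7, 100)])))))) (.pp [(1, 223894993), (2, 3008937), (3, 2996400), (4, 2982594), (5, 2996400),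 (6, 3000000), (7, 2998254), (8, 3021857), (9, 3012000), (10, 3000000), (12, 3000000), (14, 2986794), (15, 3000000), (18, 3000000), (20, 3000000), (21, 3000000), (25, 3012000), (27, 2990000), (28, 2986542), (30, 3000000), (35, 3000000), (42, 3000000), (45, 3000000), (49, 2988000), (50, 3000000), (63, 3000000), (70, 3000000), (75, 3000000), (98, 3023937), (105, 3000000), (125, 2990000), (147, 3000000), (175, 3000000), (245, 3000000), (343, 3020000)])))
    (by decide +kernel) (yv_nonneg nx ny nz nt (le_refl 0) (le_refl 0) (le_refl 0) (le_refl 0) (le_refl 0))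
    (by
      simp only [List.forall_mem_cons, exadd, exmul, exc, exv2, exv3, exv5, exv7]
      push_cast
      refine ⟨?_, ?_, ?_, ?_, ?_, ?_, ?_, ?_, fun _ hh => absurd hh List.not_mem_nil⟩ <;> linarith)
  simp only [exadd, exmul, exc, exv2, exv3, exv5, exv7] at h
  push_cast at h
  simp only [rowc, TallA.n0, TallA.n1, TallA.n3, TallA.k01, TallA.k12, TallA.q03, TallA.t3, TallA.wa, TallA.wb, TallA.wm]
  linarith [h]

theorem tot_B1 {x y z t : ℝ} (x0 : 0 ≤ x) (x1 : x ≤ 3 / 5) (y0 : 0 ≤ y) (y1 : y ≤ 3 / 5) (z0 : 0 ≤ z) (z1 : z ≤ 3 / 5) (t0 : 0 ≤ t) (t1 : t ≤ 3 / 5) :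
    rowc (TallB.n0 x) x + rowc (TallB.n1 y) y + rowc (TallB.n1 z) z + rowc (TallB.n3 t) t
    + TallB.k01 x y * (x + y) + TallB.k01 x z * (x + z) + TallB.q03 x t * (x + t)
    + TallB.k12 y z * (y + z) + TallB.la y * y
    + (TallB.wb1 y z t + (TallB.t3 t + TallB.wm x z t) + (TallB.t3 t + TallB.wml x y t)
      + TallB.wa x y z) ≤ 613 / 200 := by
  have nx : 0 ≤ x := by linarith
  have ny : 0 ≤ y := by linarith
  have nz : 0 ≤ z := by linarith
  have nt : 0 ≤ t := by linarith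
  have h := cert (y := yv x y z t 0 0 0 0 0)
    (gs := [(.v 2),
      (.add (.c (3)) (.mul (.c (-5)) (.v 2))),
      (.v 3),
      (.add (.c (3)) (.mul (.c (-5)) (.v 3))),
      (.v 5),
      (.add (.c (3)) (.mul (.c (-5)) (.v 5))),
      (.v 7),
      (.add (.c (3)) (.mul (.c (-5)) (.v 7)))])
    (p := .mul (.c 1000000) (.add (.add (.add (.add (.c (1336)) (.add (.mul (.c (42870)) (.v 2)) (.mul (.c (10398)) (.v 3)))) (.add (.mul (.c (-73221)) (.mul (.v 2) (.v 2))) (.add (.mul (.c (43617)) (.v 5)) (.mul (.c (161880)) (.mul (.v 2) (.v 3)))))) (.add (.add (.mul (.c (15963)) (.v 7)) (.add (.mul (.c (50000)) (.mul (.mul (.v 2) (.v 2)) (.v 2))) (.mul (.c (-25425)) (.mul (.v 3) (.v 3))))) (.add (.add (.mul (.c (127164)) (.mul (.v 2) (.v 5))) (.mul (.c (-134895)) (.mul (.mul (.v 2) (.v 2)) (.v 3)))) (.add (.mul (.c (-137892)) (.mul (.v 2) (.v 7))) (.mul (.c (27606)) (.mul (.v 3) (.v 5))))))) (.add (.add (.add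 (.mul (.c (-134895)) (.mul (.mul (.v 2) (.v 3)) (.v 3))) (.add (.mul (.c (-134895)) (.mul (.mul (.v 2) (.v 2)) (.v 5))) (.mul (.c (-12108)) (.mul (.v 3) (.v 7))))) (.add (.add (.mul (.c (-81306)) (.mul (.v 5) (.v 5))) (.mul (.c (50000)) (.mul (.mul (.v 3) (.v 3)) (.v 3)))) (.add (.mul (.c (124047)) (.mul (.mul (.v 2) (.v 2)) (.v 7))) (.mul (.c (-8625)) (.mul (.v 5) (.v 7)))))) (.add (.add (.mul (.c (6270)) (.mul (.mul (.v 3) (.v 3)) (.v 5))) (.add (.mul (.c (-59580)) (.mul (.v 7) (.v 7))) (.mul (.c (-134895)) (.mul (.mul (.v 2) (.v 5)) (.v 5))))) (.add (.add (.mul (.c (6270)) (.mul (.mul (.v 3) (.v 5)) (.v 5))) (.mul (.c (124047)) (.mul (.mul (.v 2) (.v 7)) (.v 7)))) (.add (.mul (.c (50000)) (.mul (.mul (.v 5) (.v 5)) (.v 5))) (.mul (.c (50000)) (.mul (.mul (.v 7) (.v 7)) (.v 7)))))))))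
    (e := (.add (.add (.add (.mul (.pp [(1, 22473)]) (.sq [(1, -27), (2, 68), (3, 100), (5, -12), (7, -15)])) (.add (.mul (.g 2) (.add (.add (.mul (.pp [(1, 4970973)]) (.sq [(1, -19), (3, 100), (7, -11)])) (.mul (.pp [(1, 28725)]) (.sq [(1, -27), (3, 100), (7, -16)]))) (.add (.mul (.g 4) (.add (.add (.pp [(1, 27319890000)]) (.mul (.g 0) (.pp [(1, 1557660000)]))) (.add (.mul (.g 2) (.pp [(1, 6267000000)])) (.add (.mul (.g 4) (.pp [(1, 6267000000)])) (.mul (.g 7) (.pp [(1, 112344000)])))))) (.add (.mul (.g 7) (.add (.add (.pp [(1, 731136000)]) (.mul (.g 1) (.pp [(1, 259447200)]))) (.add (.mul (.g 3) (.pp [(1, 440527200)])) (.mul (.g 7) (.pp [(1, 23078400)]))))) (.mul (.g 0) (.add (.pp [(1, 1322520000)]) (.add (.mul (.g 1) (.pp [(1, 26823534000)])) (.mul (.g 3) (.pp [(1, 27091074000)]))))))))) (.mul (.g 0) (.add (.add (.mul (.pp [(1, 1581378)]) (.sq [(1, -45), (2, 6), (5, 4), (7, 100)])) (.add (.mul (.pp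 [(1, 1393452)]) (.sq [(1, -43), (2, 14), (3, -20), (5, 28), (7, 100)])) (.mul (.pp [(1, 6673041)]) (.sq [(1, -64), (2, 100), (5, -34), (7, 85)])))) (.add (.mul (.pp [(1, 1042656)]) (.sq [(1, -2), (2, 50), (5, -45), (7, -2)])) (.add (.mul (.g 1) (.add (.mul (.g 0) (.pp [(1, 3934026000)])) (.add (.mul (.g 4) (.pp [(1, 17293962000)])) (.mul (.g 6) (.pp [(1, 1513512000)]))))) (.mul (.g 5) (.add (.mul (.g 4) (.pp [(1, 29357070000)])) (.mul (.g 7) (.pp [(1, 1495995600)])))))))))) (.add (.mul (.g 4) (.add (.mul (.pp [(1, 2793375)]) (.sq [(1, -22), (2, -13), (5, -13), (7, 100)])) (.add (.mul (.g 5) (.add (.pp [(1, 4612674000)]) (.add (.mul (.g 5) (.pp [(1, 1980997200)])) (.mul (.g 7) (.pp [(1, 27786000)]))))) (.mul (.g 1) (.add (.pp [(1, 961236000)]) (.mul (.g 7) (.pp [(1, 827409600)]))))))) (.add (.mul (.g 6) (.add (.mul (.pp [(1, 2971995)]) (.sq [(1, -59), (2, 77), (3, -2), (5, -47), (7, 100)])) (.mul (.g 7)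 (.add (.mul (.g 1) (.pp [(1, 12403200)])) (.mul (.g 7) (.pp [(1, 811082400)])))))) (.mul (.g 1) (.mul (.g 1) (.mul (.g 7) (.pp [(1, 40335360)]))))))) (.pp [(1, 230562463), (2, 3013098), (3, 3009222), (4, 2971176), (5, 2978796), (6, 2993760), (7, 3003075), (8, 3033800), (9, 2990400), (10, 3003420), (12, 3003120), (14, 2967522), (15, 3013200), (18, 2989200), (20, 2987913), (21, 2991066), (25, 3029388), (27, 3020000), (28, 3036645), (30, 3006240), (35, 3009450), (42, 3002460), (45, 3000000), (49, 3004575), (50, 3007038), (63, 2992620), (70, 3010110), (75, 3000000), (98, 3005151), (105, 2984940), (125, 2989625), (147, 2996667), (175, 2988045), (245, 3003000), (343, 2990000)])))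
    (by decide +kernel) (yv_nonneg nx ny nz nt (le_refl 0) (le_refl 0) (le_refl 0) (le_refl 0) (le_refl 0))
    (by
      simp only [List.forall_mem_cons, exadd, exmul, exc, exv2, exv3, exv5, exv7]
      push_cast
      refine ⟨?_, ?_, ?_, ?_, ?_, ?_, ?_, ?_, fun _ hh => absurd hh List.not_mem_nil⟩ <;> linarith)
  simp only [exadd, exmul, exc, exv2, exv3, exv5, exv7] at h
  push_cast at h
  simp only [rowc, TallB.n0, TallB.n1, TallB.n3, TallB.k01, TallB.k12, TallB.q03, TallB.la, TallB.t3, TallB.wa, TallB.wb1, TallB.wb2, TallB.wm, TallB.wml]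
  linarith [h]

theorem tot_B2 {x y z t : ℝ} (x0 : 0 ≤ x) (x1 : x ≤ 3 / 5) (y0 : 0 ≤ y) (y1 : y ≤ 3 / 5) (z0 : 0 ≤ z) (z1 : z ≤ 3 / 5) (t0 : 0 ≤ t) (t1 : t ≤ 3 / 5) :
    rowc (TallB.n0 x) x + rowc (TallB.n1 y) y + rowc (TallB.n1 z) z + rowc (TallB.n3 t) t
    + TallB.k01 x y * (x + y) + TallB.k01 x z * (x + z) + TallB.q03 x t * (x + t)
    + TallB.k12 y z * (y + z) + TallB.la y * y + TallB.la z * z
    + (TallB.wb2 y z t + (TallB.t3 t + TallB.wml x z t) + (TallB.t3 t + TallB.wml x y t)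
      + TallB.wa x y z) ≤ 613 / 200 := by
  have nx : 0 ≤ x := by linarith
  have ny : 0 ≤ y := by linarith
  have nz : 0 ≤ z := by linarith
  have nt : 0 ≤ t := by linarith
  have h := cert (y := yv x y z t 0 0 0 0 0)
    (gs := [(.v 2),
      (.add (.c (3)) (.mul (.c (-5)) (.v 2))),
      (.v 3),
      (.add (.c (3)) (.mul (.c (-5)) (.v 3))),
      (.v 5),
      (.add (.c (3)) (.mul (.c (-5)) (.v 5))),
      (.v 7),
      (.add (.c (3)) (.mul (.c (-5)) (.v 7)))])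
    (p := .mul (.c 12500) (.add (.add (.add (.add (.c (48889)) (.add (.mul (.c (4944)) (.v 2)) (.mul (.c (10050)) (.v 3)))) (.add (.mul (.c (29601)) (.mul (.v 2) (.v 2))) (.add (.mul (.c (10050)) (.v 5)) (.mul (.c (161880)) (.mul (.v 2) (.v 3)))))) (.add (.add (.mul (.c (-438)) (.v 7)) (.add (.mul (.c (50000)) (.mul (.mul (.v 2) (.v 2)) (.v 2))) (.mul (.c (-12363)) (.mul (.v 3) (.v 3))))) (.add (.add (.mul (.c (161880)) (.mul (.v 2) (.v 5))) (.mul (.c (-134895)) (.mul (.mul (.v 2) (.v 2)) (.v 3)))) (.add (.mul (.c (-213393)) (.mul (.v 2) (.v 7))) (.mul (.c (44613)) (.mul (.v 3) (.v 5))))))) (.add (.add (.add (.mul (.c (-134895)) (.mul (.mul (.v 2) (.v 3)) (.v 3))) (.add (.mul (.c (-134895)) (.mul (.mul (.v 2) (.v 2)) (.v 5))) (.mul (.c (-28719)) (.mul (.v 3) (.v 7))))) (.add (.add (.mul (.c (-12363)) (.mul (.v 5) (.v 5))) (.mul (.c (50000)) (.mul (.mul (.v 3) (.v 3)) (.v 3)))) (.add (.mul (.c (124047))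 (.mul (.mul (.v 2) (.v 2)) (.v 7))) (.mul (.c (-28719)) (.mul (.v 5) (.v 7)))))) (.add (.add (.mul (.c (6270)) (.mul (.mul (.v 3) (.v 3)) (.v 5))) (.add (.mul (.c (-42858)) (.mul (.v 7) (.v 7))) (.mul (.c (-134895)) (.mul (.mul (.v 2) (.v 5)) (.v 5))))) (.add (.add (.mul (.c (6270)) (.mul (.mul (.v 3) (.v 5)) (.v 5))) (.mul (.c (124047)) (.mul (.mul (.v 2) (.v 7)) (.v 7)))) (.add (.mul (.c (50000)) (.mul (.mul (.v 5) (.v 5)) (.v 5))) (.mul (.c (50000)) (.mul (.mul (.v 7) (.v 7)) (.v 7)))))))))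
    (e := (.add (.add (.add (.mul (.g 2) (.add (.add (.mul (.g 4) (.add (.add (.pp [(1, 557580000)]) (.mul (.g 1) (.pp [(1, 7500)]))) (.add (.mul (.g 2) (.pp [(1, 78337500)])) (.add (.mul (.g 4) (.pp [(1, 78337500)])) (.mul (.g 7) (.pp [(1, 7500)])))))) (.mul (.g 7) (.add (.add (.pp [(1, 71809500)]) (.mul (.g 0) (.pp [(1, 7500)]))) (.add (.mul (.g 2) (.pp [(1, 7500)])) (.mul (.g 6) (.pp [(1, 7500)])))))) (.add (.mul (.g 0) (.add (.mul (.g 1) (.pp [(1, 185879175)])) (.mul (.g 3) (.pp [(1, 185869200)])))) (.add (.mul (.g 2) (.add (.mul (.g 1) (.pp [(1, 151375800)])) (.mul (.g 2) (.pp [(1, 117691500)])))) (.mul (.g 3) (.mul (.g 3) (.pp [(1, 20290830)]))))))) (.add (.mul (.g 4) (.add (.add (.mul (.g 7) (.add (.add (.pp [(1, 62970000)]) (.mul (.g 0) (.pp [(1, 7500)]))) (.add (.mul (.g 4) (.pp [(1, 7500)])) (.mul (.g 7) (.pp [(1, 1472505)]))))) (.mul (.g 0) (.add (.mul (.g 1) (.pp [(1, 200619150)])) (.mul (.g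 5) (.pp [(1, 336128325)]))))) (.add (.mul (.g 4) (.add (.mul (.g 1) (.pp [(1, 1116675)])) (.mul (.g 4) (.pp [(1, 493339500)])))) (.mul (.g 5) (.mul (.g 5) (.pp [(1, 5264910)])))))) (.mul (.g 0) (.add (.mul (.g 0) (.add (.mul (.g 0) (.pp [(1, 798734625)])) (.add (.mul (.g 5) (.pp [(1, 67759575)])) (.mul (.g 6) (.pp [(1, 205900125)]))))) (.mul (.g 7) (.add (.mul (.g 1) (.pp [(1, 53785995)])) (.mul (.g 7) (.pp [(1, 62022000)])))))))) (.add (.mul (.g 1) (.mul (.g 1) (.add (.mul (.g 1) (.pp [(1, 1390179)])) (.add (.mul (.g 3) (.pp [(1, 6054633)])) (.mul (.g 5) (.pp [(1, 2754651)])))))) (.add (.mul (.g 6) (.add (.mul (.g 5) (.mul (.g 6) (.pp [(1, 7370025)]))) (.mul (.g 7) (.mul (.g 7) (.pp [(1, 24998505)]))))) (.mul (.g 7) (.mul (.g 7) (.pp [(1, 7683300)])))))) (.pp [(1, 266577299), (2, 37770), (3, 37515), (4, 37125), (5, 37560), (6, 37425), (7, 37455), (8, 37750), (9, 37500), (10, 37425), (12, 37500), (14,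 37425), (15, 37500), (18, 37500), (20, 37500), (21, 37500), (25, 37275), (27, 37750), (28, 37500), (30, 37500), (35, 37650), (42, 37500), (45, 37500), (49, 37575), (50, 37500), (63, 37500), (70, 37500), (75, 37500), (98, 37500), (105, 37500), (125, 37750), (147, 37500), (175, 37500), (245, 37500), (343, 37375)])))
    (by decide +kernel) (yv_nonneg nx ny nz nt (le_refl 0) (le_refl 0) (le_refl 0) (le_refl 0) (le_refl 0))
    (by
      simp only [List.forall_mem_cons, exadd, exmul, exc, exv2, exv3, exv5, exv7]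
      push_cast
      refine ⟨?_, ?_, ?_, ?_, ?_, ?_, ?_, ?_, fun _ hh => absurd hh List.not_mem_nil⟩ <;> linarith)
  simp only [exadd, exmul, exc, exv2, exv3, exv5, exv7] at h
  push_cast at h
  simp only [rowc, TallB.n0, TallB.n1, TallB.n3, TallB.k01, TallB.k12, TallB.q03, TallB.la, TallB.t3, TallB.wa, TallB.wb1, TallB.wb2, TallB.wm, TallB.wml]
  linarith [h]

theorem q03_A {x t : ℝ} (x0 : 0 ≤ x) (x1 : x ≤ 3 / 5) (t0 : 0 ≤ t) (t1 : t ≤ 3 / 5) :
    0 ≤ TallA.q03 x t := by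
  have nx : 0 ≤ x := by linarith
  have nt : 0 ≤ t := by linarith
  have h := cert (y := yv x t 0 0 0 0 0 0 0)
    (gs := [(.v 2),
      (.add (.c (3)) (.mul (.c (-5)) (.v 2))),
      (.v 3),
      (.add (.c (3)) (.mul (.c (-5)) (.v 3)))])
    (p := .mul (.c 125) (.add (.add (.c (41917)) (.mul (.c (-8872)) (.v 2))) (.add (.mul (.c (-14579)) (.v 3)) (.mul (.c (-67560)) (.mul (.v 2) (.v 3))))))
    (e := (.add (.add (.mul (.g 3) (.add (.add (.pp [(1, 364515)]) (.mul (.g 2) (.add (.pp [(1, 40)]) (.add (.mul (.g 0) (.pp [(1, 25)])) (.mul (.g 2) (.pp [(1, 25)])))))) (.add (.mul (.g 0) (.pp [(1, 1689070)])) (.mul (.g 1) (.mul (.g 1) (.pp [(1, 1)])))))) (.mul (.g 1) (.add (.pp [(1, 1235282)]) (.mul (.g 0) (.add (.pp [(1, 55)]) (.mul (.g 0) (.pp [(1, 25)]))))))) (.pp [(1, 440207), (2, 125), (3, 125), (4, 125), (6, 125), (8, 125), (9, 125), (12, 125), (18, 125), (27, 125)])))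
    (by decide +kernel) (yv_nonneg nx nt (le_refl 0) (le_refl 0) (le_refl 0) (le_refl 0) (le_refl 0) (le_refl 0) (le_refl 0))
    (by
      simp only [List.forall_mem_cons, exadd, exmul, exc, exv2, exv3]
      push_cast
      refine ⟨?_, ?_, ?_, ?_, fun _ hh => absurd hh List.not_mem_nil⟩ <;> linarith)
  simp only [exadd, exmul, exc, exv2, exv3] at h
  push_cast at h
  simp only [TallA.q03]
  linarith [h]

theorem q03_B {x t : ℝ} (x0 : 0 ≤ x) (x1 : x ≤ 3 / 5) (t0 : 0 ≤ t) (t1 : t ≤ 3 / 5) :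
    0 ≤ TallB.q03 x t := by
  have nx : 0 ≤ x := by linarith
  have nt : 0 ≤ t := by linarith
  have h := cert (y := yv x t 0 0 0 0 0 0 0)
    (gs := [(.v 2),
      (.add (.c (3)) (.mul (.c (-5)) (.v 2))),
      (.v 3),
      (.add (.c (3)) (.mul (.c (-5)) (.v 3)))])
    (p := .mul (.c 125) (.add (.add (.c (36452)) (.mul (.c (1608)) (.v 2))) (.add (.mul (.c (-37143)) (.v 3)) (.mul (.c (-41349)) (.mul (.v 2) (.v 3))))))
    (e := (.add (.add (.mul (.g 3) (.add (.add (.pp [(1, 928615)]) (.mul (.g 2) (.add (.pp [(1, 40)]) (.add (.mul (.g 0) (.pp [(1, 25)])) (.mul (.g 2) (.pp [(1, 25)])))))) (.add (.mul (.g 0) (.pp [(1, 1033795)])) (.mul (.g 1) (.mul (.g 1) (.pp [(1, 1)])))))) (.mul (.g 1) (.add (.pp [(1, 580117)]) (.mul (.g 0) (.add (.pp [(1, 55)]) (.mul (.g 0) (.pp [(1, 25)]))))))) (.pp [(1, 30277), (2, 125), (3, 125), (4, 125), (6, 125), (8, 125), (9, 125), (12, 125), (18, 125), (27, 125)])))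
    (by decide +kernel) (yv_nonneg nx nt (le_refl 0) (le_refl 0) (le_refl 0) (le_refl 0) (le_refl 0) (le_refl 0) (le_refl 0))
    (by
      simp only [List.forall_mem_cons, exadd, exmul, exc, exv2, exv3]
      push_cast
      refine ⟨?_, ?_, ?_, ?_, fun _ hh => absurd hh List.not_mem_nil⟩ <;> linarith)
  simp only [exadd, exmul, exc, exv2, exv3] at h
  push_cast at h
  simp only [TallB.q03]
  linarith [h]

theorem tallTotA : TallTotA := fun x y z t h =>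
  ⟨q03_A h.a0 h.a1.le h.e0 h.e1.le,
    tot_A h.a0 h.a1.le h.b0 h.b1.le h.c0 h.c1.le h.e0 h.e1.le⟩

theorem tallTotB : TallTotB := fun x y z t h =>
  ⟨q03_B h.a0 h.a1.le h.e0 h.e1.le, by
      have := h.b0
      unfold TallB.la
      linarith,
    tot_B1 h.a0 h.a1.le h.b0 h.b1.le h.c0 h.c1.le h.e0 h.e1.le,
    tot_B2 h.a0 h.a1.le h.b0 h.b1.le h.c0 h.c1.le h.e0 h.e1.le⟩

end Pool.Agent.Helper36.TW
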